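import Pool.Agent.H13.GP.Proof

/-!
# The Behsaz-Hatami-Mahmoodian conjecture

For all `n ≥ 3` and `1 ≤ k < n / 2` the vertex cover number of the generalized Petersen graph
`P(n,k)` is at most `n + ⌈n / 5⌉`.
-/

namespace Pool.Agent.Results.MP_86031e_co.VertexCover

open Pool.Agent.H13.GP

/-- **The Behsaz-Hatami-Mahmoodian conjecture.** For all `n ≥ 3` and `1 ≤ k < n / 2`, the vertex
cover number of the generalized Petersen graph `P(n,k)` is at most `n + ⌈n / 5⌉`. -/
theorem result (n k : ℕ) (hn : 3 ≤ n) (hk : 1 ≤ k) (hkn : 2 * k < n) :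
    (genPetersen n k).vertexCoverNum ≤ ((n + ⌈(n : ℚ) / 5⌉₊ : ℕ) : ℕ∞) :=
  main n k hn hk hkn

end Pool.Agent.Results.MP_86031e_co.VertexCover
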